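import Pool.Agent.N236.RT.Def

/-!
# Project RT (helper236): the bound for the minors
-/

set_option autoImplicit false

open scoped Classical

namespace Pool.Agent.N327.RT

open Module Finset
open Pool.Agent.N236.RT (Qb)

/-! ### minors of independent functions -/

theorem minor {F : Type} [Field F] {X : Type} {r : ℕ} (f : Fin r → X → F)
    (hf : LinearIndependent F f) :
    ∃ x : Fin r → X, (Matrix.of fun t l => f l (x t) : Matrix (Fin r) (Fin r) F).det ≠ 0 := by
  set s : Set (Fin r → F) := Set.range fun x : X => fun l => f l x with hs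
  have htop : Submodule.span F s = ⊤ := by
    by_contra hne
    obtain ⟨φ, hφ, hk⟩ := Submodule.exists_le_ker_of_lt_top _ (lt_top_iff_ne_top.2 hne)
    apply hφ
    have h1 : ∀ x : X, ∑ l, φ (Pi.single l 1) * f l x = 0 := by
      intro x
      have h2 : (fun l => f l x) ∈ LinearMap.ker φ := hk (Submodule.subset_span ⟨x, rfl⟩)
      rw [LinearMap.mem_ker] at h2
      rw [← h2]
      conv_rhs => rw [show (fun l => f l x) = ∑ l, f l x • (Pi.single l (1 : F) : Fin r → F) by
        funext l'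
        simp [Finset.sum_apply, Pi.single_apply]]
      rw [map_sum]
      refine sum_congr rfl fun l _ => ?_
      rw [map_smul, smul_eq_mul, mul_comm]
    have h2 : ∀ l, φ (Pi.single l 1) = 0 := by
      refine Fintype.linearIndependent_iff.1 hf _ ?_
      funext x
      simp only [Finset.sum_apply, Pi.smul_apply, smul_eq_mul, Pi.zero_apply]
      exact h1 x
    refine LinearMap.pi_ext' fun l => ?_
    ext
    simpa using h2 l
  obtain ⟨v, hv, -, hli⟩ := Submodule.exists_fun_fin_finrank_span_eq F s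
  have hr : finrank F (Submodule.span F s) = r := by
    rw [htop, finrank_top, Module.finrank_fintype_fun_eq_card, Fintype.card_fin]
  let e : Fin r ≃ Fin (finrank F (Submodule.span F s)) := finCongr hr.symm
  have h3 : ∀ t : Fin r, ∃ x : X, (fun l => f l x) = v (e t) := fun t => hv (e t)
  choose x hx using h3
  refine ⟨x, ?_⟩
  have h4 : (Matrix.of fun t l => f l (x t) : Matrix (Fin r) (Fin r) F) = Matrix.of (v ∘ e) := by
    ext t l
    exact congrFun (hx t) l
  have h5 : LinearIndependent F (Matrix.of (v ∘ e)).row := hli.comp e e.injective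
  rw [h4]
  have h6 := (Matrix.isUnit_iff_isUnit_det _).1 (Matrix.linearIndependent_rows_iff_isUnit.1 h5)
  exact h6.ne_zero

/-- a nonzero minor of the conjugates -/
theorem minor2 {K : Type} [Field K] [NumberField K] {J : Type} {r : ℕ} (β : Fin r → J → K)
    (hβ : LinearIndependent ℚ β) : ∃ (s : Fin r → (K →ₐ[ℚ] Qb)) (j : Fin r → J),
      (Matrix.of fun t l => s t (β l (j t)) : Matrix (Fin r) (Fin r) Qb).det ≠ 0 := by
  let f : Fin r → K × J → ℚ := fun l x => Algebra.trace ℚ K (x.1 * β l x.2)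
  have hf : LinearIndependent ℚ f := by
    rw [Fintype.linearIndependent_iff]
    intro y hy
    refine Fintype.linearIndependent_iff.1 hβ y ?_
    funext j
    have h1 : ∀ z : K, Algebra.traceForm ℚ K ((∑ l, y l • β l) j) z = 0 := by
      intro z
      have h2 := congrFun hy (z, j)
      simp only [Finset.sum_apply, Pi.smul_apply, smul_eq_mul, Pi.zero_apply, f] at h2
      rw [Algebra.traceForm_apply, Finset.sum_apply, sum_mul, map_sum, ← h2]
      refine sum_congr rfl fun l _ => ?_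
      rw [Pi.smul_apply, smul_mul_assoc, map_smul, smul_eq_mul, mul_comm z]
    have h3 := (traceForm_nondegenerate ℚ K).1
    exact h3 _ h1
  obtain ⟨x, hx⟩ := minor f hf
  have hx' : (Matrix.of fun t l => algebraMap ℚ Qb (f l (x t)) :
      Matrix (Fin r) (Fin r) Qb).det ≠ 0 := by
    intro h0
    apply hx
    have h1 : algebraMap ℚ Qb (Matrix.of fun t l => f l (x t) : Matrix (Fin r) (Fin r) ℚ).det = 0 := by
      rw [RingHom.map_det, ← h0]
      rfl
    exact (map_eq_zero_iff _ (algebraMap ℚ Qb).injective).1 h1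
  let G : ∀ t : Fin r, (K →ₐ[ℚ] Qb) → Fin r → Qb := fun t σ l => σ ((x t).1) * σ (β l (x t).2)
  have h1 : (Matrix.of fun t l => algebraMap ℚ Qb (f l (x t)) :
      Matrix (Fin r) (Fin r) Qb) = Matrix.of fun t => ∑ σ, G t σ := by
    ext t l
    simp only [Matrix.of_apply, f, G, Finset.sum_apply]
    rw [trace_eq_sum_embeddings Qb]
    exact sum_congr rfl fun σ _ => map_mul σ _ _
  have h2 : (Matrix.of fun t => ∑ σ, G t σ : Matrix (Fin r) (Fin r) Qb).det =
      ∑ s : Fin r → (K →ₐ[ℚ] Qb), (Matrix.of fun t => G t (s t) : Matrix (Fin r) (Fin r) Qb).det :=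
    MultilinearMap.map_sum (Matrix.detRowAlternating (R := Qb) (n := Fin r)).toMultilinearMap G
  rw [h1, h2] at hx'
  obtain ⟨s, -, hs⟩ := Finset.exists_ne_zero_of_sum_ne_zero hx'
  refine ⟨s, fun t => (x t).2, ?_⟩
  intro h0
  apply hs
  have h3 : (Matrix.of fun t => G t (s t) : Matrix (Fin r) (Fin r) Qb) =
      Matrix.of fun t l => s t ((x t).1) * (Matrix.of fun t l => s t (β l (x t).2) :
        Matrix (Fin r) (Fin r) Qb) t l := by
    ext t l
    rfl
  rw [h3, Matrix.det_mul_column, h0, mul_zero]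

/-! ### the Galois group -/

theorem isAlg : Algebra.IsAlgebraic ℚ Qb := by
  have h := AlgebraicClosure.isAlgebraic ℚ
  convert h
  · rfl
  · exact Subsingleton.elim _ _

theorem isClo : IsAlgClosure ℚ Qb := ⟨inferInstance, isAlg⟩

theorem isNor : Normal ℚ Qb := @IsAlgClosure.normal ℚ Qb _ _ _ isClo

theorem isGal : IsGalois ℚ Qb := by
  have := isNor
  have := isAlg
  exact ⟨⟩

theorem trans_gal {K : Type} [Field K] [NumberField K] (σ τ : K →ₐ[ℚ] Qb) :
    ∃ g : Qb ≃ₐ[ℚ] Qb, (g : Qb →ₐ[ℚ] Qb).comp σ = τ := by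
  have := isAlg
  have := isNor
  let pb := Field.powerBasisOfFiniteOfSeparable ℚ K
  have h1 : Polynomial.aeval (τ pb.gen) (minpoly ℚ (σ pb.gen)) = 0 := by
    rw [minpoly.algHom_eq σ σ.injective, Polynomial.aeval_algHom_apply, minpoly.aeval, map_zero]
  have h2 : IsAlgebraic ℚ (σ pb.gen) := Algebra.IsAlgebraic.isAlgebraic _
  obtain ⟨g, hg⟩ := minpoly.exists_algEquiv_of_root' h2 h1
  exact ⟨g, pb.algHom_ext hg⟩

section orbit

variable {K : Type} [Field K] [NumberField K] {r : ℕ}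

/-- the action -/
noncomputable def act (g : Qb ≃ₐ[ℚ] Qb) (s : Fin r → (K →ₐ[ℚ] Qb)) : Fin r → (K →ₐ[ℚ] Qb) :=
  fun t => (g : Qb →ₐ[ℚ] Qb).comp (s t)

/-- the orbit -/
noncomputable def Ob (s : Fin r → (K →ₐ[ℚ] Qb)) : Finset (Fin r → (K →ₐ[ℚ] Qb)) :=
  univ.filter fun s' => ∃ g, s' = act g s

theorem act_mul (g g' : Qb ≃ₐ[ℚ] Qb) (s : Fin r → (K →ₐ[ℚ] Qb)) :
    act g (act g' s) = act (g'.trans g) s := by
  funext t
  ext x
  rfl

theorem act_symm (g : Qb ≃ₐ[ℚ] Qb) (s : Fin r → (K →ₐ[ℚ] Qb)) : act g.symm (act g s) = s := by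
  funext t
  ext x
  exact g.symm_apply_apply _

theorem act_symm' (g : Qb ≃ₐ[ℚ] Qb) (s : Fin r → (K →ₐ[ℚ] Qb)) : act g (act g.symm s) = s := by
  funext t
  ext x
  exact g.apply_symm_apply _

theorem mem_Ob {s s' : Fin r → (K →ₐ[ℚ] Qb)} : s' ∈ Ob s ↔ ∃ g, s' = act g s := by
  unfold Ob
  rw [mem_filter]
  exact ⟨fun h => h.2, fun h => ⟨mem_univ _, h⟩⟩

theorem act_mem {s s' : Fin r → (K →ₐ[ℚ] Qb)} (g : Qb ≃ₐ[ℚ] Qb) (h : s' ∈ Ob s) :
    act g s' ∈ Ob s := by
  obtain ⟨g', rfl⟩ := mem_Ob.1 h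
  exact mem_Ob.2 ⟨_, act_mul _ _ _⟩

theorem self_mem (s : Fin r → (K →ₐ[ℚ] Qb)) : s ∈ Ob s :=
  mem_Ob.2 ⟨AlgEquiv.refl, by funext t; ext x; rfl⟩

theorem prod_act {E : Type} [CommMonoid E] (s : Fin r → (K →ₐ[ℚ] Qb)) (g : Qb ≃ₐ[ℚ] Qb)
    (F : (Fin r → (K →ₐ[ℚ] Qb)) → E) : ∏ s' ∈ Ob s, F (act g s') = ∏ s' ∈ Ob s, F s' := by
  refine prod_bij' (fun s' _ => act g s') (fun s' _ => act g.symm s') ?_ ?_ ?_ ?_ ?_
  · exact fun s' h => act_mem g h
  · exact fun s' h => act_mem g.symm h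
  · exact fun s' _ => act_symm g s'
  · exact fun s' _ => act_symm' g s'
  · exact fun s' _ => rfl

/-- every conjugate occurs equally often -/
theorem equi (s : Fin r → (K →ₐ[ℚ] Qb)) (t : Fin r) (F : (K →ₐ[ℚ] Qb) → ℝ) :
    (finrank ℚ K : ℝ) * ∑ s' ∈ Ob s, F (s' t) = (Ob s).card * ∑ τ, F τ := by
  have h1 : ∀ τ₁ τ₂ : K →ₐ[ℚ] Qb, ((Ob s).filter fun s' => s' t = τ₁).card =
      ((Ob s).filter fun s' => s' t = τ₂).card := by
    intro τ₁ τ₂
    obtain ⟨g, hg⟩ := trans_gal τ₁ τ₂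
    refine card_bij' (fun s' _ => act g s') (fun s' _ => act g.symm s') ?_ ?_ ?_ ?_
    · intro s' h
      rw [mem_filter] at h ⊢
      refine ⟨act_mem g h.1, ?_⟩
      rw [← hg, ← h.2]
      rfl
    · intro s' h
      rw [mem_filter] at h ⊢
      refine ⟨act_mem g.symm h.1, ?_⟩
      have h2 : act g.symm s' t = (g.symm : Qb →ₐ[ℚ] Qb).comp τ₂ := by
        rw [← h.2]
        rfl
      rw [h2, ← hg]
      ext x
      exact g.symm_apply_apply _
    · exact fun s' _ => act_symm g s'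
    · exact fun s' _ => act_symm' g s'
  have h2 : ∀ τ : K →ₐ[ℚ] Qb, (finrank ℚ K : ℝ) * ((Ob s).filter fun s' => s' t = τ).card =
      (Ob s).card := by
    intro τ
    have h3 : (Ob s).card = ∑ τ', ((Ob s).filter fun s' => s' t = τ').card :=
      card_eq_sum_card_fiberwise fun s' _ => Finset.mem_coe.2 (mem_univ _)
    rw [h3, sum_congr rfl fun τ' _ => h1 τ' τ, sum_const, card_univ, AlgHom.card ℚ K Qb, smul_eq_mul]
    push_cast
    ring
  have h3 : ∑ s' ∈ Ob s, F (s' t) = ∑ τ, ((Ob s).filter fun s' => s' t = τ).card * F τ := by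
    rw [← sum_fiberwise_of_maps_to (s := Ob s) (t := univ) (g := fun s' => s' t)
      (fun s' _ => mem_univ _)]
    refine sum_congr rfl fun τ _ => ?_
    rw [sum_congr rfl fun s' hs' => by rw [(mem_filter.1 hs').2], sum_const, nsmul_eq_mul]
  rw [h3, mul_sum, mul_sum]
  refine sum_congr rfl fun τ _ => ?_
  rw [← h2 τ]
  ring

end orbit

theorem det_bd {r : ℕ} (A : Matrix (Fin r) (Fin r) ℂ) (c : Fin r → ℝ)
    (hc : ∀ t k, ‖A t k‖ ≤ c t) : ‖A.det‖ ≤ r.factorial * ∏ t, c t := by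
  rw [Matrix.det_apply]
  refine (norm_sum_le _ _).trans ?_
  have h : ∀ π : Equiv.Perm (Fin r), ‖Equiv.Perm.sign π • ∏ i, A (π i) i‖ ≤ ∏ t, c t := by
    intro π
    have h1 : ‖Equiv.Perm.sign π • ∏ i, A (π i) i‖ = ∏ i, ‖A (π i) i‖ := by
      rcases Int.units_eq_one_or (Equiv.Perm.sign π) with h | h <;> rw [h] <;> simp [norm_prod]
    rw [h1, ← Equiv.prod_comp π c]
    exact prod_le_prod (fun _ _ => norm_nonneg _) fun i _ => hc _ _
  refine (sum_le_sum fun π _ => h π).trans ?_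
  rw [sum_const, card_univ, Fintype.card_perm, Fintype.card_fin, nsmul_eq_mul]

/-- **the bound of the index** -/
theorem bnd {K : Type} [Field K] [NumberField K] {J : Type} {r : ℕ} (β : Fin r → J → K)
    (hβ : LinearIndependent ℚ β) (hint : ∀ l j, IsIntegral ℤ (β l j))
    (m : Matrix (Fin r) (Fin r) ℤ) (g : (K →ₐ[ℚ] ℂ) → ℝ) (h : ℝ) (hg : ∀ σ, 1 ≤ g σ)
    (hgb : ∀ σ j k, ‖σ (∑ l, m k l • β l j)‖ ≤ g σ)
    (hgs : ∑ σ, Real.log (g σ) ≤ finrank ℚ K * h) :
    (m.det.natAbs : ℝ) ≤ r.factorial * Real.exp (r * h) := by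
  have := isAlg
  have := isGal
  obtain ⟨s, j, hs⟩ := minor2 β hβ
  let Bm : (Fin r → (K →ₐ[ℚ] Qb)) → Matrix (Fin r) (Fin r) Qb := fun s' =>
    Matrix.of fun t l => s' t (β l (j t))
  have hBact : ∀ (γ : Qb ≃ₐ[ℚ] Qb) s', (Bm (act γ s')).det = γ (Bm s').det := by
    intro γ s'
    have h1 := RingHom.map_det (γ : Qb →+* Qb) (Bm s')
    exact (h1.trans rfl).symm
  have hBne : ∀ s' ∈ Ob s, (Bm s').det ≠ 0 := by
    intro s' hs'
    obtain ⟨γ, rfl⟩ := mem_Ob.1 hs'
    rw [hBact]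
    exact (map_ne_zero_iff γ γ.injective).2 hs
  set P : Qb := ∏ s' ∈ Ob s, (Bm s').det with hP
  have hP0 : P ≠ 0 := prod_ne_zero_iff.2 hBne
  have hPg : ∀ γ : Qb ≃ₐ[ℚ] Qb, γ P = P := by
    intro γ
    rw [hP, map_prod, ← prod_act s γ fun s' => (Bm s').det]
    exact prod_congr rfl fun s' _ => (hBact γ s').symm
  have hPi : IsIntegral ℤ P := by
    refine IsIntegral.prod _ fun s' _ => ?_
    refine IsIntegral.det fun t l => ?_
    exact map_isIntegral_int (s' t) (hint l (j t))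
  obtain ⟨x, hx⟩ := (InfiniteGalois.mem_range_algebraMap_iff_fixed (k := ℚ) (K := Qb) P).2 hPg
  have hxi : IsIntegral ℤ x := by
    rw [← hx] at hPi
    exact (isIntegral_algebraMap_iff (algebraMap ℚ Qb).injective).1 hPi
  obtain ⟨z, hz⟩ := IsIntegrallyClosed.isIntegral_iff.1 hxi
  let φ : Qb →ₐ[ℚ] ℂ := IsAlgClosed.lift
  have hφP : 1 ≤ ‖φ P‖ := by
    have h1 : φ P = ((z : ℤ) : ℂ) := by
      rw [← hx, ← hz, AlgHom.commutes]
      simp
    have hz0 : z ≠ 0 := by
      rintro rfl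
      apply hP0
      rw [← hx, ← hz]
      simp
    rw [h1, Complex.norm_intCast]
    exact_mod_cast Int.one_le_abs hz0
  -- the determinants of the conjugates
  have hdet : ∀ s', ‖φ (Bm s').det‖ * (m.det.natAbs : ℝ) ≤
      r.factorial * ∏ t, g (φ.comp (s' t)) := by
    intro s'
    have h1 : (Matrix.of fun t k => φ (s' t (∑ l, m k l • β l (j t))) :
        Matrix (Fin r) (Fin r) ℂ) =
        ((Bm s').map φ) * (m.map (Int.cast : ℤ → ℂ)).transpose := by
      ext t k
      rw [Matrix.mul_apply, Matrix.of_apply, map_sum, map_sum]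
      refine sum_congr rfl fun l _ => ?_
      rw [Matrix.transpose_apply, Matrix.map_apply, Matrix.map_apply, map_zsmul, map_zsmul,
        zsmul_eq_mul, mul_comm]
      rfl
    have h2 := det_bd (Matrix.of fun t k => φ (s' t (∑ l, m k l • β l (j t))) :
        Matrix (Fin r) (Fin r) ℂ) (fun t => g (φ.comp (s' t)))
        fun t k => hgb (φ.comp (s' t)) (j t) k
    rw [h1, Matrix.det_mul, Matrix.det_transpose, norm_mul] at h2
    have h3 : ((Bm s').map φ).det = φ (Bm s').det :=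
      (RingHom.map_det (φ : Qb →+* ℂ) (Bm s')).symm
    have h4 : ‖(m.map (Int.cast : ℤ → ℂ)).det‖ = (m.det.natAbs : ℝ) := by
      have h5 : (m.map (Int.cast : ℤ → ℂ)).det = ((m.det : ℤ) : ℂ) :=
        (RingHom.map_det (Int.castRingHom ℂ) m).symm
      rw [h5, Complex.norm_intCast, Nat.cast_natAbs]
      push_cast
      rfl
    rw [h3, h4] at h2
    exact h2
  have hO : (Ob s).card ≠ 0 := (card_pos.2 ⟨s, self_mem s⟩).ne'
  have hN : (0 : ℝ) < finrank ℚ K := by exact_mod_cast finrank_pos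
  -- the sum over the orbit
  have hsum : ∑ s' ∈ Ob s, ∑ t, Real.log (g (φ.comp (s' t))) ≤ (Ob s).card * (r * h) := by
    rw [sum_comm]
    have h1 : ∀ t ∈ (univ : Finset (Fin r)), ∑ s' ∈ Ob s, Real.log (g (φ.comp (s' t))) ≤
        (Ob s).card * h := by
      intro t _
      have h2 := equi s t fun τ => Real.log (g (φ.comp τ))
      have h3 : ∑ τ : K →ₐ[ℚ] Qb, Real.log (g (φ.comp τ)) = ∑ σ, Real.log (g σ) := by
        refine Fintype.sum_bijective (fun τ => φ.comp τ) ?_ _ _ fun τ => rfl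
        rw [Fintype.bijective_iff_injective_and_card]
        refine ⟨?_, ?_⟩
        · intro τ τ' hh
          ext y
          exact φ.injective (DFunLike.congr_fun hh y)
        · rw [AlgHom.card ℚ K Qb, AlgHom.card ℚ K ℂ]
      rw [h3] at h2
      have h4 : (finrank ℚ K : ℝ) * ∑ s' ∈ Ob s, Real.log (g (φ.comp (s' t))) ≤
          finrank ℚ K * ((Ob s).card * h) := by
        rw [h2]
        calc ((Ob s).card : ℝ) * ∑ σ, Real.log (g σ) ≤ (Ob s).card * (finrank ℚ K * h) :=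
              mul_le_mul_of_nonneg_left hgs (by positivity)
          _ = _ := by ring
      exact le_of_mul_le_mul_left h4 hN
    refine (sum_le_sum h1).trans (le_of_eq ?_)
    rw [sum_const, card_univ, Fintype.card_fin, nsmul_eq_mul]
    ring
  have hfin : (m.det.natAbs : ℝ) ^ (Ob s).card ≤
      (r.factorial * Real.exp (r * h)) ^ (Ob s).card := by
    have h1 : ∏ s' ∈ Ob s, (‖φ (Bm s').det‖ * (m.det.natAbs : ℝ)) ≤
        ∏ s' ∈ Ob s, (r.factorial * ∏ t, g (φ.comp (s' t))) :=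
      prod_le_prod (fun _ _ => by positivity) fun s' _ => hdet s'
    rw [prod_mul_distrib, prod_mul_distrib, prod_const, prod_const, ← norm_prod, ← map_prod,
      ← hP] at h1
    have h2 : ∏ s' ∈ Ob s, ∏ t, g (φ.comp (s' t)) =
        Real.exp (∑ s' ∈ Ob s, ∑ t, Real.log (g (φ.comp (s' t)))) := by
      rw [Real.exp_sum]
      refine prod_congr rfl fun s' _ => ?_
      rw [Real.exp_sum]
      refine prod_congr rfl fun t _ => ?_
      rw [Real.exp_log (lt_of_lt_of_le one_pos (hg _))]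
    rw [mul_pow, ← Real.exp_nat_mul]
    calc (m.det.natAbs : ℝ) ^ (Ob s).card ≤ ‖φ P‖ * (m.det.natAbs : ℝ) ^ (Ob s).card :=
          le_mul_of_one_le_left (by positivity) hφP
      _ ≤ _ := h1
      _ ≤ _ := by
        refine mul_le_mul_of_nonneg_left ?_ (by positivity)
        rw [h2]
        exact Real.exp_le_exp.2 hsum
  exact (pow_le_pow_iff_left₀ (by positivity) (by positivity) hO).1 hfin

end Pool.Agent.N327.RT
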