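import Mathlib

/-!
# Project RT (helper236): the pigeonhole part of Siegel's lemma with rank
-/

set_option autoImplicit false

open scoped Classical

namespace Pool.Agent.N327.RT

open Module Finset

/-- the minor of the rows `I` -/
def mn {n r : ℕ} (U : Fin n → Fin r → ℤ) (I : Fin r → Fin n) : Matrix (Fin r) (Fin r) ℤ :=
  Matrix.of fun k l => U (I k) l

theorem cram {n r : ℕ} (U : Fin n → Fin r → ℤ) (I : Fin r → Fin n) (i : Fin n) (l : Fin r) :
    ∑ k, (mn U (Function.update I k i)).det * U (I k) l = (mn U I).det * U i l := by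
  have h1 := Matrix.mulVec_cramer (mn U I).transpose (U i)
  have h2 := congrFun h1 l
  rw [Matrix.det_transpose] at h2
  simp only [Matrix.mulVec, dotProduct, Matrix.transpose_apply, Matrix.cramer_transpose_apply,
    Pi.smul_apply, smul_eq_mul] at h2
  rw [← h2]
  refine sum_congr rfl fun k _ => ?_
  rw [mul_comm]
  congr 1
  congr 1
  ext k' l'
  unfold mn
  rw [Matrix.updateRow_apply, Matrix.of_apply, Function.update_apply]
  split_ifs <;> rfl

theorem pig {n r B : ℕ} (U : Fin n → Fin r → ℤ) (I : Fin r → Fin n) (hd : (mn U I).det ≠ 0)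
    (hm : ∀ I' : Fin r → Fin n, |(mn U I').det| ≤ |(mn U I).det|)
    (hB : (mn U I).det.natAbs * (2 * n * B + 1) ^ r < (B + 1) ^ n) :
    ∃ v : Fin n → ℤ, v ≠ 0 ∧ ∑ i, v i • U i = 0 ∧ ∀ i, |v i| ≤ B := by
  set q : ℤ := (mn U I).det with hq
  have hli : LinearIndependent ℤ (fun k => U (I k)) :=
    Matrix.linearIndependent_rows_of_det_ne_zero hd
  set N : Submodule ℤ (Fin r → ℤ) := Submodule.span ℤ (Set.range fun k => U (I k)) with hN
  let bN : Basis (Fin r) ℤ N := Basis.span hli
  have hcard : Nat.card ((Fin r → ℤ) ⧸ N) = q.natAbs := by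
    rw [← Submodule.natAbs_det_basis_change (Pi.basisFun ℤ (Fin r)) N bN, Pi.basisFun_det]
    congr 2
    ext k l
    show ((bN k : N) : Fin r → ℤ) l = U (I k) l
    have : ((bN k : N) : Fin r → ℤ) = U (I k) := by
      show ((Basis.span hli k : Submodule.span ℤ (Set.range fun k => U (I k))) : Fin r → ℤ) = _
      rw [Basis.span_apply]
    rw [this]
  have hq0 : q.natAbs ≠ 0 := Int.natAbs_ne_zero.2 hd
  have hfin : Finite ((Fin r → ℤ) ⧸ N) := Nat.finite_of_card_ne_zero (by rw [hcard]; exact hq0)
  haveI := Fintype.ofFinite ((Fin r → ℤ) ⧸ N)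
  have hQ : 0 < |q| := abs_pos.2 hd
  -- the coordinates
  let c : Fin n → Fin r → ℤ := fun i k => (mn U (Function.update I k i)).det
  have hc : ∀ i k, |c i k| ≤ |q| := fun i k => hm _
  let y : (Fin n → ℤ) → Fin r → ℤ := fun v k => ∑ i, v i * c i k
  have hy : ∀ (v : Fin n → ℤ) (l : Fin r), ∑ k, y v k * U (I k) l = q * (∑ i, v i • U i) l := by
    intro v l
    simp only [y, sum_mul, Finset.sum_apply, Pi.smul_apply, smul_eq_mul, mul_sum]
    rw [sum_comm]
    refine sum_congr rfl fun i _ => ?_
    have := cram U I i l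
    rw [← hq] at this
    calc ∑ k, v i * c i k * U (I k) l = v i * ∑ k, c i k * U (I k) l := by
          rw [mul_sum]
          exact sum_congr rfl fun k _ => by ring
      _ = v i * (q * U i l) := by rw [this]
      _ = q * (v i * U i l) := by ring
  let vv : (Fin n → Fin (B + 1)) → Fin n → ℤ := fun v i => ((v i : ℕ) : ℤ)
  have hyb : ∀ (v : Fin n → Fin (B + 1)) (k : Fin r),
      y (vv v) k / |q| ∈ Finset.Icc (-((n * B : ℕ) : ℤ)) ((n * B : ℕ) : ℤ) := by
    intro v k
    have h1 : |y (vv v) k| ≤ ((n * B : ℕ) : ℤ) * |q| := by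
      refine (abs_sum_le_sum_abs _ _).trans ?_
      have h2 : ∀ i ∈ (univ : Finset (Fin n)), |vv v i * c i k| ≤ (B : ℤ) * |q| := by
        intro i _
        rw [abs_mul]
        refine mul_le_mul ?_ (hc i k) (abs_nonneg _) (by positivity)
        show |((v i : ℕ) : ℤ)| ≤ B
        rw [abs_of_nonneg (by positivity)]
        have := (v i).2
        omega
      refine (sum_le_card_nsmul _ _ _ h2).trans ?_
      rw [card_univ, Fintype.card_fin, nsmul_eq_mul]
      push_cast
      rw [mul_assoc]
    obtain ⟨h2, h3⟩ := abs_le.1 h1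
    rw [Finset.mem_Icc]
    constructor
    · rw [Int.le_ediv_iff_mul_le hQ]
      linarith
    · exact Int.ediv_le_of_le_mul hQ h3
  let Φ : (Fin n → Fin (B + 1)) → ((Fin r → ℤ) ⧸ N) ×
      (Fin r → Finset.Icc (-((n * B : ℕ) : ℤ)) ((n * B : ℕ) : ℤ)) := fun v =>
    (Submodule.Quotient.mk (∑ i, vv v i • U i), fun k => ⟨y (vv v) k / |q|, hyb v k⟩)
  have hlt : Fintype.card (((Fin r → ℤ) ⧸ N) ×
      (Fin r → Finset.Icc (-((n * B : ℕ) : ℤ)) ((n * B : ℕ) : ℤ))) <
      Fintype.card (Fin n → Fin (B + 1)) := by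
    rw [Fintype.card_prod, ← Nat.card_eq_fintype_card, hcard, Fintype.card_fun, Fintype.card_fun,
      Fintype.card_fin, Fintype.card_fin, Fintype.card_fin, Fintype.card_coe, Int.card_Icc]
    refine lt_of_le_of_lt (le_of_eq ?_) hB
    congr 2
    rw [show ((n * B : ℕ) : ℤ) + 1 - -((n * B : ℕ) : ℤ) = ((2 * n * B + 1 : ℕ) : ℤ) by
      push_cast; ring]
    exact Int.toNat_natCast _
  obtain ⟨v, v', hvv, he⟩ := Fintype.exists_ne_map_eq_of_card_lt Φ hlt
  refine ⟨fun i => vv v i - vv v' i, ?_, ?_, ?_⟩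
  · intro h0
    apply hvv
    funext i
    have := congrFun h0 i
    simp only [vv, Pi.zero_apply] at this
    apply Fin.ext
    omega
  · have h1 : (∑ i, vv v i • U i) - (∑ i, vv v' i • U i) ∈ N :=
      (Submodule.Quotient.eq N).1 (congrArg Prod.fst he)
    rw [hN, Submodule.mem_span_range_iff_exists_fun] at h1
    obtain ⟨m, hm'⟩ := h1
    have h2 : ∀ l, ∑ k, (y (vv v) k - y (vv v') k - q * m k) * U (I k) l = 0 := by
      intro l
      have h3 := congrFun hm' l
      simp only [Finset.sum_apply, Pi.smul_apply, smul_eq_mul, Pi.sub_apply] at h3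
      have h4 := hy (vv v) l
      have h5 := hy (vv v') l
      simp only [Finset.sum_apply, Pi.smul_apply, smul_eq_mul] at h4 h5
      have h6 : ∑ k, (y (vv v) k - y (vv v') k - q * m k) * U (I k) l =
          ∑ k, y (vv v) k * U (I k) l - ∑ k, y (vv v') k * U (I k) l -
            q * ∑ k, m k * U (I k) l := by
        rw [mul_sum, ← sum_sub_distrib, ← sum_sub_distrib]
        exact sum_congr rfl fun k _ => by ring
      rw [h6, h4, h5, h3]
      ring
    have h3 : ∀ k, y (vv v) k - y (vv v') k - q * m k = 0 := by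
      refine Fintype.linearIndependent_iff.1 hli _ ?_
      funext l
      simp only [Finset.sum_apply, Pi.smul_apply, smul_eq_mul, Pi.zero_apply]
      exact h2 l
    have h4 : ∀ k, m k = 0 := by
      intro k
      have h5 : y (vv v) k / |q| = y (vv v') k / |q| :=
        congrArg Subtype.val (congrFun (congrArg Prod.snd he) k)
      have h6 := Int.emod_add_mul_ediv (y (vv v) k) |q|
      have h7 := Int.emod_add_mul_ediv (y (vv v') k) |q|
      have h8 := Int.emod_nonneg (y (vv v) k) hQ.ne'
      have h9 := Int.emod_lt_of_pos (y (vv v) k) hQ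
      have h10 := Int.emod_nonneg (y (vv v') k) hQ.ne'
      have h11 := Int.emod_lt_of_pos (y (vv v') k) hQ
      rw [h5] at h6
      have h12 : |q * m k| < |q| := by
        have : q * m k = y (vv v) k - y (vv v') k := by linarith [h3 k]
        rw [this, abs_lt]
        constructor <;> linarith
      rw [abs_mul] at h12
      by_contra hne
      have h13 : 1 ≤ |m k| := Int.one_le_abs hne
      nlinarith
    simp_rw [sub_smul]
    rw [sum_sub_distrib, ← hm']
    refine sum_eq_zero fun k _ => ?_
    rw [h4 k, zero_smul]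
  · intro i
    have h1 := (v i).2
    have h2 := (v' i).2
    simp only [vv]
    rw [abs_le]
    constructor <;> omega

end Pool.Agent.N327.RT
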