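import Pool.Agent.N236.RT.Stm
import Pool.Agent.N327.RT.Pig
import Pool.Agent.N327.RT.Gal

/-!
# Project RT (helper236): Siegel's lemma with the rank of the system
-/

set_option autoImplicit false

open scoped Classical

namespace Pool.Agent.N327.RT

open Module Finset

theorem t_RS : Pool.Agent.N236.RT.S_RS := by
  intro K _ _ n R J a w g h B hRn hint hw hwz hg hgb hgs hB hlt
  let α : Fin n → J → K := fun i j => a j i
  set Γ : Submodule ℤ (J → K) := Submodule.span ℤ (Set.range α) with hΓ
  have hfin : Module.Finite ℤ Γ := Module.Finite.span_of_finite ℤ (Set.finite_range α)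
  set r := finrank ℤ Γ with hr
  let b : Basis (Fin r) ℤ Γ := Module.finBasis ℤ Γ
  let β : Fin r → J → K := fun l => (b l : J → K)
  have hαΓ : ∀ i, α i ∈ Γ := fun i => Submodule.subset_span ⟨i, rfl⟩
  let U : Fin n → Fin r → ℤ := fun i l => b.repr ⟨α i, hαΓ i⟩ l
  have hU : ∀ i, α i = ∑ l, U i l • β l := by
    intro i
    have h1 := b.sum_repr ⟨α i, hαΓ i⟩
    have h2 := congrArg (fun x : Γ => (x : J → K)) h1
    simp only [Submodule.coe_sum, Submodule.coe_smul] at h2
    exact h2.symm
  have hβ : LinearIndependent ℚ β := by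
    have h1 : LinearIndependent ℤ β := b.linearIndependent.map' Γ.subtype (Submodule.ker_subtype _)
    exact (LinearIndependent.iff_fractionRing ℤ ℚ).1 h1
  -- the combinations
  have hS : ∀ l, ∃ c : Fin n → ℤ, ∑ i, c i • α i = β l := fun l =>
    (Submodule.mem_span_range_iff_exists_fun ℤ).1 (b l).2
  choose S hS using hS
  have hrR : r ≤ R := by
    let T : (Fin n → ℚ) →ₗ[ℚ] (J → K) := Fintype.linearCombination ℚ α
    have hT : ∀ v, T v = ∑ i, v i • α i := fun v => Fintype.linearCombination_apply ℚ α v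
    have h1 : ∀ k, w k ∈ LinearMap.ker T := by
      intro k
      rw [LinearMap.mem_ker, hT]
      funext j
      rw [Finset.sum_apply]
      exact hwz k j
    have h2 : LinearIndependent ℚ (fun k => (⟨w k, h1 k⟩ : LinearMap.ker T)) :=
      LinearIndependent.of_comp (LinearMap.ker T).subtype hw
    have h3 := h2.fintype_card_le_finrank
    rw [Fintype.card_fin] at h3
    have h4 : ∀ l, β l ∈ LinearMap.range T := by
      intro l
      refine ⟨fun i => (S l i : ℚ), ?_⟩
      rw [hT, ← hS l]
      refine sum_congr rfl fun i _ => ?_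
      exact Int.cast_smul_eq_zsmul ℚ _ _
    have h5 : LinearIndependent ℚ (fun l => (⟨β l, h4 l⟩ : LinearMap.range T)) :=
      LinearIndependent.of_comp (LinearMap.range T).subtype hβ
    have h6 := h5.fintype_card_le_finrank
    rw [Fintype.card_fin] at h6
    have h7 := LinearMap.finrank_range_add_finrank_ker T
    rw [Module.finrank_fintype_fun_eq_card, Fintype.card_fin] at h7
    omega
  have hβint : ∀ l j, IsIntegral ℤ (β l j) := by
    intro l j
    rw [← hS l, Finset.sum_apply]
    refine IsIntegral.sum _ fun i _ => ?_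
    rw [Pi.smul_apply]
    exact (hint j i).smul _
  -- a nonzero minor
  have hI₀ : ∃ I : Fin r → Fin n, (mn U I).det ≠ 0 := by
    have h1 : (Matrix.of fun l => ∑ i, S l i • U i : Matrix (Fin r) (Fin r) ℤ) = 1 := by
      ext l l'
      have h2 : (∑ i, S l i • (⟨α i, hαΓ i⟩ : Γ)) = b l := by
        apply Subtype.ext
        rw [Submodule.coe_sum]
        exact hS l
      have h3 := congrArg (fun x => b.repr x l') h2
      simp only [map_sum, map_zsmul, Finsupp.coe_finsetSum, Finset.sum_apply, Finsupp.smul_apply,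
        Basis.repr_self] at h3
      rw [Matrix.of_apply, Finset.sum_apply, Matrix.one_apply]
      simp only [Pi.smul_apply]
      refine h3.trans ?_
      rw [Finsupp.single_apply]
    have h2 : (Matrix.of fun l => ∑ i, S l i • U i : Matrix (Fin r) (Fin r) ℤ).det =
        ∑ f : Fin r → Fin n, (Matrix.of fun l => S l (f l) • U (f l) :
          Matrix (Fin r) (Fin r) ℤ).det :=
      MultilinearMap.map_sum (Matrix.detRowAlternating (R := ℤ) (n := Fin r)).toMultilinearMap
        fun l i => S l i • U i
    rw [h1, Matrix.det_one] at h2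
    obtain ⟨f, -, hf⟩ := Finset.exists_ne_zero_of_sum_ne_zero (h2 ▸ one_ne_zero)
    refine ⟨f, fun h0 => hf ?_⟩
    have h3 : (Matrix.of fun l => S l (f l) • U (f l) : Matrix (Fin r) (Fin r) ℤ) =
        Matrix.of fun l l' => S l (f l) * mn U f l l' := by
      ext l l'
      rfl
    rw [h3, Matrix.det_mul_column, h0, mul_zero]
  obtain ⟨I₀, hI₀⟩ := hI₀
  obtain ⟨I, -, hmax⟩ := Finset.exists_max_image (univ : Finset (Fin r → Fin n))
    (fun I => |(mn U I).det|) ⟨I₀, mem_univ _⟩
  have hdI : (mn U I).det ≠ 0 := by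
    intro h0
    have h1 := hmax I₀ (mem_univ _)
    simp only [h0, abs_zero] at h1
    exact hI₀ (abs_eq_zero.1 (le_antisymm h1 (abs_nonneg _)))
  have hN : (0 : ℝ) < finrank ℚ K := by exact_mod_cast finrank_pos
  have hh : 0 ≤ h := by
    have h1 : 0 ≤ ∑ σ : K →ₐ[ℚ] ℂ, Real.log (g σ) := sum_nonneg fun σ _ => Real.log_nonneg (hg σ)
    by_contra hneg
    have h2 : (finrank ℚ K : ℝ) * h < 0 := mul_neg_of_pos_of_neg hN (not_le.1 hneg)
    linarith
  have hq := bnd β hβ hβint (mn U I) g h hg (by
    intro σ j k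
    have h1 : ∑ l, mn U I k l • β l j = a j (I k) := by
      have h2 := congrFun (hU (I k)) j
      rw [Finset.sum_apply] at h2
      exact h2.symm
    rw [h1]
    exact hgb σ j (I k)) hgs
  have hlt' : (mn U I).det.natAbs * (2 * n * B + 1) ^ r < (B + 1) ^ n := by
    have h1 : (((mn U I).det.natAbs * (2 * n * B + 1) ^ r : ℕ) : ℝ) < (((B + 1) ^ n : ℕ) : ℝ) := by
      push_cast
      refine lt_of_le_of_lt ?_ hlt
      have h2 : (1 : ℝ) ≤ 2 * n * B + 1 := by
        have : (0 : ℝ) ≤ 2 * n * B := by positivity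
        linarith
      have h3 : (2 * (n : ℝ) * B + 1) ^ r ≤ (2 * n * B + 1) ^ R := pow_le_pow_right₀ h2 hrR
      have h4 : (r.factorial : ℝ) ≤ R.factorial := by exact_mod_cast Nat.factorial_le hrR
      have h5 : Real.exp (r * h) ≤ Real.exp (R * h) := by
        apply Real.exp_le_exp.2
        have : (r : ℝ) ≤ R := by exact_mod_cast hrR
        exact mul_le_mul_of_nonneg_right this hh
      refine mul_le_mul (hq.trans ?_) h3 (by positivity) (by positivity)
      exact mul_le_mul h4 h5 (Real.exp_pos _).le (by positivity)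
    exact_mod_cast h1
  obtain ⟨v, hv0, hvU, hvB⟩ := pig U I hdI (fun I' => hmax I' (mem_univ _)) hlt'
  refine ⟨v, hv0, ?_, hvB⟩
  intro j
  have h1 : ∑ i, v i • α i = 0 := by
    have h2 : ∀ l, ∑ i, v i * U i l = 0 := by
      intro l
      have h3 := congrFun hvU l
      simpa [Finset.sum_apply] using h3
    calc ∑ i, v i • α i = ∑ i, ∑ l, (v i * U i l) • β l := by
          refine sum_congr rfl fun i _ => ?_
          rw [hU i, smul_sum]
          exact sum_congr rfl fun l _ => (mul_smul _ _ _).symm
      _ = ∑ l, (∑ i, v i * U i l) • β l := by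
          rw [sum_comm]
          exact sum_congr rfl fun l _ => (sum_smul).symm
      _ = 0 := sum_eq_zero fun l _ => by rw [h2 l, zero_smul]
  have h2 := congrFun h1 j
  rw [Finset.sum_apply] at h2
  exact h2

end Pool.Agent.N327.RT
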